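import Pool.Agent.Q208.DI.Fin

/-!
# Supremum of mean distance to the boundary over inradius, for bounded open planar sets

The Euclidean plane is `ℂ` with its norm and Lebesgue measure.
-/

set_option autoImplicit false

namespace Pool.Agent.Results.MP_50360a_an.MeanDistanceInradius

open MeasureTheory

/-- the distance to the boundary, `d_Ω` -/
noncomputable def bdist (Ω : Set ℂ) (x : ℂ) : ℝ := Metric.infDist x (frontier Ω)

/-- the inradius `ρ(Ω)`, the supremum of `d_Ω` over `Ω` -/
noncomputable def inradius (Ω : Set ℂ) : ℝ := sSup (bdist Ω '' Ω)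

/-- the functional `F_{∞,1}`: the average of `d_Ω` over `Ω` divided by the inradius -/
noncomputable def meanRatio (Ω : Set ℂ) : ℝ := (⨍ x in Ω, bdist Ω x) / inradius Ω

/-- The supremum of `F_{∞,1}` over all bounded open (nonempty) planar sets is
`1/3 + (log 3)/4`. -/
theorem result : IsLUB {t : ℝ | ∃ Ω : Set ℂ, IsOpen Ω ∧ Bornology.IsBounded Ω ∧ Ω.Nonempty ∧
    t = meanRatio Ω} (1 / 3 + Real.log 3 / 4) :=
  Pool.Agent.Q208.DI.main

end Pool.Agent.Results.MP_50360a_an.MeanDistanceInradius
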